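import Pool.Agent.TH621.RP.Rat

set_option autoImplicit false

/-! # Long prime-free intervals around the values of all polynomials of a finite family at once

For every finite family `𝓕` of nonconstant polynomials with rational coefficients there are `c > 0`,
`A` and `Y₀` such that for `Y ≥ Y₀` every interval `(M, M + Y]` of the integers contains an `n` such
that, for all `f ∈ 𝓕` simultaneously, every integer `m` within
`c log Y log₂ Y log₄ Y / (log₃ Y)²` of `f(n)` has a prime factor at most `(log Y)^A` and is neither
a prime nor the negative of a prime.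

Method: Rankin's construction with the residue class zero modulo the primes `p ≤ (log x)^3` and
`z < p ≤ x` (for these `f(n) + k` behaves like the integer `f(0) + k`), random residue classes
modulo the medium primes (the number of roots of `f + k` modulo `p` is one on average over `k`, with
an elementary second moment), the class zero modulo the remaining primes `|f(0) + k|`, and, for the
few `k` for which `f(0) + k` is smooth, a new lemma: if `g` is a polynomial with bounded leading
part and `|g(0)| ≤ u` and `U` is any set of at most `u` primes, then some value of `g` has a prime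
factor outside `U` of size at most `u ^ a` (`Pool.Agent.TH621.RP.lemK`). -/

namespace Pool.Agent.Results.MP_711652_nt.AllPolynomialValues

open Polynomial

theorem result (𝓕 : Finset ℚ[X]) (h𝓕 : ∀ f ∈ 𝓕, 1 ≤ f.natDegree) :
    ∃ (c : ℝ) (A : ℕ), 0 < c ∧ ∃ Y₀ : ℝ, ∀ Y : ℝ, Y₀ ≤ Y → ∀ M : ℤ,
      ∃ n : ℤ, M < n ∧ (n : ℝ) ≤ M + Y ∧ ∀ f ∈ 𝓕, ∀ m : ℤ,
        |(m : ℝ) - ((f.eval (n : ℚ) : ℚ) : ℝ)| ≤
          c * (Real.log Y * Real.log (Real.log Y) *
            Real.log (Real.log (Real.log (Real.log Y))) /
              (Real.log (Real.log (Real.log Y))) ^ 2) →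
        (∃ p : ℕ, p.Prime ∧ (p : ℝ) ≤ (Real.log Y) ^ A ∧ (p : ℤ) ∣ m) ∧ ¬ Prime m :=
  Pool.Agent.TH621.RP.main_rat 𝓕 h𝓕

end Pool.Agent.Results.MP_711652_nt.AllPolynomialValues
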