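import Pool.Agent.TH915.PW.PolyMain

set_option autoImplicit false

/-! # Prime gaps of record length around the values of real polynomials

Let `f` be a real polynomial of any degree with positive leading coefficient and with an irrational
coefficient in positive degree.  There is `κ > 0` such that for arbitrarily large `Z` - for all large
`Z` if no coefficient of positive degree is a Liouville number - every interval `(M, M + Z]`,
`M ≥ Z`, contains an integer `n` such that no prime lies within
`κ log Z (log₂ Z)² log₄ Z / (log₃ Z)²` of `f n`.

Proof: the part of `f` of high degree with rational coefficients is constant modulo one on suitable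
residue classes; Weyl differencing for the rest shows that the integer parts of the values are
equidistributed in residue classes with a power saving at every scale at which the highest irrational
coefficient has a rational approximation with a denominator between two powers of `Z`; the covering
sieve of `MP_3bc45c_nt.RecordGaps` (helper256's team), in a form for families of integers with a
relative error, does the rest. -/

namespace Pool.Agent.Results.MP_711652_nt.IrrationalPolynomials

theorem result (f : Polynomial ℝ) (hlc : 0 < f.leadingCoeff)
    (h : ∃ i, 1 ≤ i ∧ Irrational (f.coeff i)) :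
    ∃ κ : ℝ, 0 < κ ∧
      (∀ Z₁ : ℝ, ∃ Z : ℝ, Z₁ ≤ Z ∧ ∀ M : ℝ, Z ≤ M →
        ∃ n : ℕ, M < n ∧ (n : ℝ) ≤ M + Z ∧ ∀ q : ℕ, q.Prime →
          κ * (Real.log Z * (Real.log (Real.log Z)) ^ 2 *
            Real.log (Real.log (Real.log (Real.log Z))) / (Real.log (Real.log (Real.log Z))) ^ 2) <
              |(q : ℝ) - f.eval (n : ℝ)|) ∧
      ((∀ i, 1 ≤ i → ¬ Liouville (f.coeff i)) → ∃ Z₀ : ℝ, ∀ Z : ℝ, Z₀ ≤ Z → ∀ M : ℝ, Z ≤ M →
        ∃ n : ℕ, M < n ∧ (n : ℝ) ≤ M + Z ∧ ∀ q : ℕ, q.Prime →
          κ * (Real.log Z * (Real.log (Real.log Z)) ^ 2 *
            Real.log (Real.log (Real.log (Real.log Z))) / (Real.log (Real.log (Real.log Z))) ^ 2) <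
              |(q : ℝ) - f.eval (n : ℝ)|) :=
  Pool.Agent.TH915.PW.poly_both f hlc h

end Pool.Agent.Results.MP_711652_nt.IrrationalPolynomials
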