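import Pool.Agent.TH646.TT.Grid
import Pool.Agent.TH823.Fam.Fam2

/-!
# Primes at a distance of at most a power of the logarithm, on almost all thin translates of arbitrary sets

The Vinogradov bound at all points of the circle, its combination with the kernel of a short interval and
Selberg's upper bound function over short intervals are from the starting files (`Pool.Agent.W301.SS`), as are
the bilinear inequality for families of nearly minimal additive energy (`Pool.Agent.H373R2.T7`, used through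
`Pool.Agent.TH935.LF`) and the moments of Weyl sums (used through `Pool.Agent.TH823.Fam`).
From Mathlib: `Polynomial ℤ`: the polynomials with integer coefficients; `f.eval m`: the value at `m`;
`(s m).toNat`: the integer `s m` (if it is not negative) as a natural number.
-/

set_option autoImplicit false

namespace Pool.Agent.Results.MP_711652_nt.ThinTranslates

open Finset

/-- The additive energy of order `p` of the family `s 1, ..., s x`: the number of the solutions of
`s (v 1) + ... + s (v p) = s (w 1) + ... + s (w p)` with all `v i`, `w i` in `{1, ..., x}`. -/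
def energy (p x : ℕ) (s : ℕ → ℤ) : ℕ :=
  (((Fintype.piFinset fun _ : Fin p => Icc 1 x) ×ˢ (Fintype.piFinset fun _ : Fin p => Icc 1 x)).filter
    (fun q => ∑ i, s (q.1 i) = ∑ i, s (q.2 i))).card

open Classical in
/-- The number of the `m` in `{1, ..., x}` with the property `E`. -/
noncomputable def num (x : ℕ) (E : ℕ → Prop) : ℝ := (((Icc 1 x).filter E).card : ℝ)

/-- The number of the primes in `(n, n + y]`. -/
def primesIn (n y : ℕ) : ℕ := ((Ioc n (n + y)).filter Nat.Prime).card

open Classical in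
/-- The translate `A + b` has good points: for all integers `y` with `(log N) ^ K ≤ y ≤ N` the average of
`primesIn (a + b) y` over the `a ∈ A` differs from `y / log N` by at most `ε y / log N`, and at least
`(1 / 4 - ε) |A|` elements `a` of `A` have at least `ε y / log N` primes in `(a + b, a + b + y]`. -/
noncomputable def Good (ε : ℝ) (K N : ℕ) (A : Finset ℕ) (b : ℕ) : Prop :=
  ∀ y : ℕ, Real.log N ^ K ≤ y → y ≤ N →
    |(∑ a ∈ A, (primesIn (a + b) y : ℝ)) * Real.log N - A.card * y| ≤ ε * (A.card * y) ∧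
    (1 / 4 - ε) * A.card ≤ ((A.filter fun a => ε * y ≤ (primesIn (a + b) y : ℝ) * Real.log N).card : ℝ)

lemma num_mono {x : ℕ} {E F : ℕ → Prop} (h : ∀ m ∈ Icc 1 x, E m → F m) : num x E ≤ num x F := by
  classical
  unfold num
  apply Nat.cast_le.2
  apply card_le_card
  intro m hm
  rw [mem_filter] at hm ⊢
  exact ⟨hm.1, h m hm.1 hm.2⟩

lemma num_le {x : ℕ} {E : ℕ → Prop} {V : ℝ} (h : ∀ S : Finset ℕ, S ⊆ Icc 1 x → (∀ m ∈ S, E m) → (S.card : ℝ) ≤ V) :
    num x E ≤ V := by
  classical
  unfold num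
  apply h _ (filter_subset _ _)
  intro m hm
  rw [mem_filter] at hm
  exact hm.2

lemma general (p B C U : ℕ) (ε : ℝ) (hε : 0 < ε) (hε1 : ε ≤ 1 / 4) : ∃ K : ℕ, ∀ N : ℕ, K ≤ N →
    ∀ (x : ℕ) (s : ℕ → ℤ), (∀ m ∈ Icc 1 x, |s m| ≤ B * N) →
    (energy p x s : ℝ) * N ≤ Real.log N ^ C * (x : ℝ) ^ (2 * p) →
    ∀ A : Finset ℕ, A ⊆ Icc 1 N → N / Real.log N ^ C ≤ (A.card : ℝ) →
      num x (fun m => 0 < s m ∧ s m ≤ N ∧ ¬ Good ε K N A (s m).toNat) ≤ x / Real.log N ^ U := by
  classical
  obtain ⟨K, hK⟩ := Pool.Agent.TH646.TT.cnt_full p B C U ε hε hε1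
  obtain ⟨N₀, h0⟩ := Filter.eventually_atTop.1 (hK.and (Pool.Agent.W301.SS.ev_L 1))
  refine ⟨max K N₀, fun N hN x s hs hE A hA hAN => ?_⟩
  obtain ⟨h1, h2⟩ := h0 N ((le_max_right _ _).trans hN)
  have hℓ : 0 < Real.log N := by linarith
  rw [div_le_iff₀ (by positivity)] at hAN
  refine num_le fun S hS1 hS2 => h1 x s hs hE A hA hAN S hS1 ?_
  intro m hm
  obtain ⟨h4, h5, h6⟩ := hS2 m hm
  refine ⟨h4, h5, fun h7 => h6 ?_⟩
  intro y hy1 hy2
  have hy1' : Real.log N ^ K ≤ y := (pow_le_pow_right₀ h2 (le_max_left _ _)).trans hy1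
  exact h7 y hy1' hy2

/-- Let `B`, `C`, `U` and `0 < ε ≤ 1 / 4` be fixed.

* For every `p` there is a `K` such that for all `N ≥ K` the following holds. Let `s 1, ..., s x` be an
  arbitrary family of integers in `[-B N, B N]` with an additive energy of order `p` of at most `log ^ C N`
  times the minimal possible size `x ^ (2 p) / N`, and let `A` be an arbitrary set of at least
  `N / log ^ C N` integers in `[1, N]`. Then all the members `b = s m` in `[1, N]` of the family, with at
  most `x / log ^ U N` exceptions `m ≤ x`, are such that for all integers `y` with `(log N) ^ K ≤ y ≤ N`: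
  the average over `a ∈ A` of the number of the primes in `(a + b, a + b + y]` differs from `y / log N` by
  at most `ε y / log N`, and at least `(1 / 4 - ε) |A|` elements `a` of `A` have at least `ε y / log N`
  primes in `(a + b, a + b + y]`.
* In particular this holds for the members `b = c + f m`, `m ≤ x`, where `f` is a fixed nonconstant
  polynomial with integer coefficients, of degree `d`, `N / log ^ C N ≤ x ^ d ≤ B N` and `|c| ≤ B N`. -/
theorem result (B C U : ℕ) (ε : ℝ) (hε : 0 < ε) (hε1 : ε ≤ 1 / 4) :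
    (∀ p : ℕ, ∃ K : ℕ, ∀ N : ℕ, K ≤ N → ∀ (x : ℕ) (s : ℕ → ℤ), (∀ m ∈ Icc 1 x, |s m| ≤ B * N) →
      (energy p x s : ℝ) * N ≤ Real.log N ^ C * (x : ℝ) ^ (2 * p) →
      ∀ A : Finset ℕ, A ⊆ Icc 1 N → N / Real.log N ^ C ≤ (A.card : ℝ) →
        num x (fun m => 0 < s m ∧ s m ≤ N ∧ ¬ Good ε K N A (s m).toNat) ≤ x / Real.log N ^ U) ∧
    (∀ f : Polynomial ℤ, 1 ≤ f.natDegree → ∃ K : ℕ, ∀ N : ℕ, K ≤ N → ∀ x : ℕ,
      x ^ f.natDegree ≤ B * N → (N : ℝ) ≤ Real.log N ^ C * (x : ℝ) ^ f.natDegree → ∀ c : ℤ, |c| ≤ B * N →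
      ∀ A : Finset ℕ, A ⊆ Icc 1 N → N / Real.log N ^ C ≤ (A.card : ℝ) →
        num x (fun m => 0 < c + f.eval (m : ℤ) ∧ c + f.eval (m : ℤ) ≤ N ∧
          ¬ Good ε K N A (c + f.eval (m : ℤ)).toNat) ≤ x / Real.log N ^ U) := by
  classical
  refine ⟨fun p => general p B C U ε hε hε1, fun f hd => ?_⟩
  obtain ⟨p, B', hB', N1, h1⟩ := Pool.Agent.TH823.Fam.poly_family f hd B C
  obtain ⟨K, h2⟩ := general p B' (C + 1) U ε hε hε1
  obtain ⟨N₀, h0⟩ := Filter.eventually_atTop.1 (Pool.Agent.W301.SS.ev_L 1)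
  refine ⟨K + N1 + N₀, fun N hN x hx1 hx2 c hc A hA hAN => ?_⟩
  have h5 := h0 N (by omega)
  obtain ⟨h3, h4⟩ := h1 N (by omega) x hx1 hx2 c hc
  have hA2 : N / Real.log N ^ (C + 1) ≤ (A.card : ℝ) := by
    refine le_trans ?_ hAN
    apply div_le_div_of_nonneg_left (Nat.cast_nonneg _) (by positivity)
    exact pow_le_pow_right₀ h5 (by omega)
  refine le_trans ?_ (h2 N (by omega) x (fun m => c + f.eval (m : ℤ)) h3 h4 A hA hA2)
  apply num_mono
  rintro m _ ⟨h6, h7, h8⟩
  refine ⟨h6, h7, fun h9 => h8 ?_⟩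
  intro y hy1 hy2
  exact h9 y ((pow_le_pow_right₀ h5 (by omega)).trans hy1) hy2

end Pool.Agent.Results.MP_711652_nt.ThinTranslates
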