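import Pool.Agent.TH894.LH6

/-!
# Primes at a distance of at most a power of the logarithm from many points of the translates of arbitrary sets
by the numbers which arise from an arbitrary integer by `C log log X` changes of digits

Nothing is used besides Mathlib in the statement.
-/

set_option autoImplicit false

namespace Pool.Agent.Results.MP_711652_nt.TranslatesFewDigitChanges

open Finset

/-- The number of the primes in `(n, n + y]`. -/
def primesIn (n y : ℕ) : ℕ := ((Ioc n (n + y)).filter Nat.Prime).card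

open Classical in
/-- With `X = b ^ K`: the translate `B + n` has good points: for all integers `y` with `K ^ κ ≤ y ≤ X / 4` the average of
`primesIn (a + n) y` over the `a ∈ B` differs from `y / log X` by at most `ε y / log X`, and at least
`(1 / 4 - ε) |B|` elements `a` of `B` have at least `ε y / log X` primes in `(a + n, a + n + y]`. -/
noncomputable def Good (ε : ℝ) (κ b K : ℕ) (B : Finset ℕ) (n : ℕ) : Prop :=
  ∀ y : ℕ, (K : ℝ) ^ κ ≤ y → 4 * y ≤ b ^ K →
    |(∑ a ∈ B, (primesIn (a + n) y : ℝ)) * Real.log ((b ^ K : ℕ) : ℝ) - B.card * y| ≤ ε * (B.card * y) ∧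
    (1 / 4 - ε) * B.card ≤ ((B.filter fun a => ε * y ≤ (primesIn (a + n) y : ℝ) * Real.log ((b ^ K : ℕ) : ℝ)).card : ℝ)

/-- The digit number `i` (counted from the right, beginning with `0`) of `n` in base `b`. -/
def digit (b i n : ℕ) : ℕ := n / b ^ i % b

/-- The number which arises from the number `N` with at most `K` digits in base `b`, if for every `i ∈ S`
the digit number `i` is replaced by `f i`. -/
def change (b K N : ℕ) (f : ℕ → ℕ) (S : Finset ℕ) : ℕ :=
  ∑ i ∈ range K, (if i ∈ S then f i else digit b i N) * b ^ i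

/-- The positions `1, ..., K - 1` of a number with at most `K` digits are divided into three windows: the
first and the last `h` positions and the rest. -/
def window (h K : ℕ) (q : Fin 3) : Finset ℕ :=
  if q = 0 then Ico 1 (1 + h) else if q = 1 then Ico (1 + h) (K - h) else Ico (K - h) K

/-- The choices of `s 0`, `s 1`, `s 2` positions in the three windows. -/
def choices (h K : ℕ) (s : Fin 3 → ℕ) : Finset (Fin 3 → Finset ℕ) :=
  Fintype.piFinset (fun q => powersetCard (s q) (window h K q))

open Classical in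
/-- The number of the choices for which the number obtained by changing the digits of `N` at the chosen
positions (according to `f`) does not have the property `E`. -/
noncomputable def exceptions (b h K N : ℕ) (f : ℕ → ℕ) (s : Fin 3 → ℕ) (E : ℕ → Prop) : ℕ :=
  ((choices h K s).filter (fun S => ¬ E (change b K N f (S 0 ∪ S 1 ∪ S 2)))).card

lemma change_SM (b K N : ℕ) (f : ℕ → ℕ) (T : Finset ℕ) : change b K N f T = Pool.Agent.TH894.SM.change b K N f T := rfl

/-- For every base `b ≥ 2` there is an `R ≥ 1` with the following property. Let `C`, `U` and `0 < ε ≤ 1 / 4` be given. Then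
there are `C₁ ≥ 1`, `A` and `κ` such that for every sufficiently large `K` and every integer `0 ≤ N < X = b ^ K` the following
holds.

Let `m = ⌊log_b (K + 1)⌋ + 1` and `h = A m`, and divide the positions `1, ..., K - 1` of the digits into three windows: the
first `h` and the last `h` of them, and the rest. Prescribe for every position `j` a digit `f j` different from the
digit of `N`. Let `s 0`, `s 1`, `s 2` be integers between `C₁ m` and `1 / R` times the length of the respective
window (by the first assertion one can take `s q = C₁ m`, so that only `3 C₁ m` of the digits of `N` are changed). Let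
`B` be an arbitrary set of at least `X / K ^ C` integers in `[1, X / 2]`.

If one chooses `s 0`, `s 1`, `s 2` positions in the three windows and replaces the digits of `N` at these positions, then for
all but at most a proportion `1 / K ^ U` of the choices the number `n` obtained is `0`, or for all integers `y` with
`K ^ κ ≤ y ≤ X / 4` the average over `a ∈ B` of the number of the primes in `(a + n, a + n + y]` is within `ε y / log X` of
`y / log X`, and at least `(1 / 4 - ε) |B|` elements `a` of `B` have at least `ε y / log X` primes in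
`(a + n, a + n + y]`. -/
theorem result (b : ℕ) (hb : 2 ≤ b) : ∃ R : ℕ, 1 ≤ R ∧ ∀ C U : ℕ, ∀ ε : ℝ, 0 < ε → ε ≤ 1 / 4 → ∃ C₁ A κ K₀ : ℕ, 1 ≤ C₁ ∧
    ∀ K : ℕ, K₀ ≤ K → (∀ q, R * (C₁ * (Nat.log b (K + 1) + 1)) ≤ (window (A * (Nat.log b (K + 1) + 1)) K q).card) ∧
    ∀ N : ℕ, N < b ^ K → ∀ f : ℕ → ℕ, (∀ j, f j < b ∧ f j ≠ digit b j N) →
    ∀ s : Fin 3 → ℕ, (∀ q, C₁ * (Nat.log b (K + 1) + 1) ≤ s q ∧ R * s q ≤ (window (A * (Nat.log b (K + 1) + 1)) K q).card) →
    ∀ B : Finset ℕ, B ⊆ Icc 1 (b ^ K / 2) → ((b ^ K : ℕ) : ℝ) / (K : ℝ) ^ C ≤ B.card →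
      (exceptions b (A * (Nat.log b (K + 1) + 1)) K N f s (fun n => 0 < n → Good ε κ b K B n) : ℝ) ≤
        1 / (K : ℝ) ^ U * (choices (A * (Nat.log b (K + 1) + 1)) K s).card := by
  classical
  obtain ⟨R, hR, H⟩ := Pool.Agent.TH894.LH.all_ch b hb
  refine ⟨8 * R, by omega, fun C U ε hε hε1 => ?_⟩
  obtain ⟨C₁, hC, H1⟩ := H C U ε hε hε1
  obtain ⟨A, κ, hA, k₀, h0⟩ := H1 (8 * R * C₁)
  obtain ⟨k2, h2⟩ := Pool.Agent.W93.DG.hh_small b A 4 hb
  refine ⟨C₁, 2 * A, κ, k₀ + k2 + 8, hC, fun K hK => ?_⟩
  have hwin : ∀ q, window (2 * A * (Nat.log b (K + 1) + 1)) K q =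
      Pool.Agent.TH894.SM.Win (Pool.Agent.W93.DG.hh b A (K + 1)) (K + 1) q := by
    intro q
    unfold window Pool.Agent.TH894.SM.Win Pool.Agent.W93.DG.hh
    rw [Nat.add_sub_cancel]
  have hsm := h2 (K + 1) (by omega)
  have hlow : 8 * R * (C₁ * (Nat.log b (K + 1) + 1)) ≤ Pool.Agent.W93.DG.hh b A (K + 1) := by
    unfold Pool.Agent.W93.DG.hh
    calc 8 * R * (C₁ * (Nat.log b (K + 1) + 1)) = (8 * R * C₁) * (Nat.log b (K + 1) + 1) := by ring
      _ ≤ (2 * A) * (Nat.log b (K + 1) + 1) := Nat.mul_le_mul_right _ (by omega)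
  refine ⟨fun q => ?_, fun N hN f hf s hs B hB hBX => ?_⟩
  · rw [hwin]
    refine hlow.trans ?_
    unfold Pool.Agent.TH894.SM.Win
    split_ifs
    · rw [Nat.card_Ico]; omega
    · rw [Nat.card_Ico]; omega
    · rw [Nat.card_Ico]; omega
  have hun : ∀ S : Fin 3 → Finset ℕ, Pool.Agent.TH894.SM.un S = S 0 ∪ S 1 ∪ S 2 := by
    intro S
    unfold Pool.Agent.TH894.SM.un
    ext x
    simp only [mem_biUnion, mem_univ, true_and, mem_union]
    constructor
    · rintro ⟨q, hq⟩
      have hq3 : q = 0 ∨ q = 1 ∨ q = 2 := by fin_cases q <;> simp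
      rcases hq3 with rfl | rfl | rfl
      · exact Or.inl (Or.inl hq)
      · exact Or.inl (Or.inr hq)
      · exact Or.inr hq
    · rintro ((h | h) | h)
      · exact ⟨0, h⟩
      · exact ⟨1, h⟩
      · exact ⟨2, h⟩
  have hch : choices (2 * A * (Nat.log b (K + 1) + 1)) K s = Pool.Agent.TH894.LG.Ch b A K s := by
    unfold choices Pool.Agent.TH894.LG.Ch
    simp only [hwin]
  have hK0 : (0 : ℝ) < (K : ℝ) ^ C := by
    have : (0 : ℝ) < K := by exact_mod_cast (by omega : 0 < K)
    positivity
  rw [div_le_iff₀ hK0] at hBX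
  have key : ∀ E : ℕ → Prop, (∀ a, ¬ E a → 0 < a ∧ ¬ Good ε κ b K B a) →
      (exceptions b (2 * A * (Nat.log b (K + 1) + 1)) K N f s E : ℝ) ≤
        1 / (K : ℝ) ^ U * (choices (2 * A * (Nat.log b (K + 1) + 1)) K s).card := by
    intro E hE
    unfold exceptions
    rw [hch]
    refine h0 K (by omega) N hN f hf s (fun q => (hs q).1) (fun q => by rw [← hwin]; exact (hs q).2) B hB hBX _ (filter_subset _ _) ?_
    intro S hS
    rw [mem_filter] at hS
    obtain ⟨_, hS2⟩ := hS
    rw [← hun S, change_SM] at hS2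
    obtain ⟨h3, h4⟩ := hE _ hS2
    unfold Good at h4
    push Not at h4
    obtain ⟨y, hy1, hy2, hy3⟩ := h4
    refine ⟨h3, y, hy1, hy2, ?_⟩
    rintro ⟨h5, h6⟩
    exact absurd h6 (not_le.2 (hy3 h5))
  apply key
  intro a ha
  push Not at ha
  exact ha

end Pool.Agent.Results.MP_711652_nt.TranslatesFewDigitChanges
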